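import Pool.Agent.Helper34.EC.Defs

/-!
# Project EC, module D1: division by the diagonal
-/

set_option autoImplicit false

namespace Pool.Agent.Helper12.EC

open Polynomial
open Pool.Agent.Helper34.EC

section D

variable {k : Type} [Field k]

theorem coeff_coeff_swap (f : k[X][X]) (i j : ℕ) :
    ((Bivariate.swap f).coeff i).coeff j = (f.coeff j).coeff i := by
  induction f using Polynomial.induction_on' with
  | add f g hf hg => rw [map_add, coeff_add, coeff_add, coeff_add, coeff_add, hf, hg]
  | monomial n a =>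
    induction a using Polynomial.induction_on' with
    | add a b ha hb =>
      rw [map_add, map_add, coeff_add, coeff_add, coeff_add, coeff_add, ha, hb]
    | monomial m r =>
      rw [Bivariate.swap_monomial_monomial]
      by_cases h1 : m = i <;> by_cases h2 : n = j <;> simp [coeff_monomial, h1, h2]

theorem natDegree_swap_le {f : k[X][X]} {M : ℕ} :
    (Bivariate.swap f).natDegree ≤ M ↔ ∀ j, (f.coeff j).natDegree ≤ M := by
  constructor
  · intro h j
    rw [natDegree_le_iff_coeff_eq_zero]
    intro i hi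
    rw [← coeff_coeff_swap, coeff_eq_zero_of_natDegree_lt (lt_of_le_of_lt h hi), coeff_zero]
  · intro h
    rw [natDegree_le_iff_coeff_eq_zero]
    intro i hi
    ext j
    rw [coeff_coeff_swap, coeff_eq_zero_of_natDegree_lt (lt_of_le_of_lt (h j) hi), coeff_zero]

theorem swap_diag : Bivariate.swap (X - C X : k[X][X]) = (C X - X : k[X][X]) := by
  rw [map_sub, Bivariate.swap_Y, Bivariate.swap_X]

theorem diag_pow (γ : ℕ) : (C X - X : k[X][X]) ^ γ = (X - C X : k[X][X]) ^ γ ∨
    (C X - X : k[X][X]) ^ γ = - (X - C X : k[X][X]) ^ γ := by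
  have h : (C X - X : k[X][X]) = (-1) * (X - C X : k[X][X]) := by ring
  rw [h, mul_pow]
  rcases neg_one_pow_eq_or k[X][X] γ with h4 | h4
  · exact Or.inl (by rw [h4, one_mul])
  · exact Or.inr (by rw [h4, neg_one_mul])

theorem sh_diag (a b : k) : sh a b (X - C X) = X - C (X - C (b - a)) := by
  have h1 : sh a b X = X + C (C b) := by
    change taylor (C b) (Polynomial.map _ X) = _
    rw [Polynomial.map_X, taylor_X]
  have h2 : sh a b (C X) = C (X + C a) := by
    change taylor (C b) (Polynomial.map _ (C X)) = _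
    rw [Polynomial.map_C, taylor_C]
    congr 1
    change taylor a X = _
    rw [taylor_X]
  rw [map_sub, h1, h2]
  simp only [map_sub, map_add]
  ring

/-- Division by the diagonal does not change the multiplicity away from the diagonal. -/
theorem multGe_of_mul {p q : k} (hpq : p ≠ q) {m : ℕ} {h : k[X][X]}
    (hm : MultGe m p q ((X - C X) * h)) : MultGe m p q h := by
  intro i j
  induction hn : i + j using Nat.strong_induction_on generalizing i j with
  | _ n ih =>
    intro hij
    have h1 := hm i j (by omega)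
    rw [map_mul, sh_diag, sub_mul, coeff_sub, coeff_sub, coeff_C_mul, sub_mul, coeff_sub,
      coeff_C_mul] at h1
    have h2 : ((X * sh p q h).coeff j).coeff i = 0 := by
      rcases j with _ | j
      · rw [coeff_X_mul_zero, coeff_zero]
      · rw [coeff_X_mul]
        exact ih (i + j) (by omega) i j rfl (by omega)
    have h3 : (X * (sh p q h).coeff j).coeff i = 0 := by
      rcases i with _ | i
      · rw [coeff_X_mul_zero]
      · rw [coeff_X_mul]
        exact ih (i + j) (by omega) i j rfl (by omega)
    rw [h2, h3, zero_sub_zero_sub] at h1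
    exact (mul_eq_zero.1 h1).resolve_left (sub_ne_zero.2 hpq.symm)

theorem multGe_of_pow_mul {p q : k} (hpq : p ≠ q) {m : ℕ} {h : k[X][X]} (γ : ℕ)
    (hm : MultGe m p q ((X - C X) ^ γ * h)) : MultGe m p q h := by
  induction γ with
  | zero => rwa [pow_zero, one_mul] at hm
  | succ γ ih =>
    rw [pow_succ', mul_assoc] at hm
    exact ih (multGe_of_mul hpq hm)

/-- EC-D1 -/
theorem div_diag {f : k[X][X]} (hf : f ≠ 0) {M γ : ℕ} (hM : f.natDegree ≤ M)
    (hM' : ∀ j, (f.coeff j).natDegree ≤ M) (hd : (X - C X : k[X][X]) ^ γ ∣ f) :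
    γ ≤ M ∧ ∃ h : k[X][X], h ≠ 0 ∧ h.natDegree ≤ M - γ ∧ (∀ j, (h.coeff j).natDegree ≤ M - γ) ∧
      ∀ p q : k, p ≠ q → ∀ m, MultGe m p q f → MultGe m p q h := by
  obtain ⟨h, rfl⟩ := hd
  have hh : h ≠ 0 := right_ne_zero_of_mul hf
  have hmon : ((X - C X : k[X][X]) ^ γ).Monic := (monic_X_sub_C _).pow γ
  have hdeg : ((X - C X : k[X][X]) ^ γ).natDegree = γ := by
    rw [natDegree_pow, natDegree_X_sub_C, mul_one]
  have h1 : ∀ u : k[X][X], u ≠ 0 → ((X - C X) ^ γ * u).natDegree = γ + u.natDegree := by
    intro u hu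
    rw [hmon.natDegree_mul' hu, hdeg]
  have h2 := h1 h hh
  have hs : Bivariate.swap h ≠ 0 := by
    intro h0
    exact hh (by rw [← Bivariate.swap_swap_apply h, h0, map_zero])
  have h3 : (Bivariate.swap ((X - C X) ^ γ * h)).natDegree =
      γ + (Bivariate.swap h).natDegree := by
    rw [map_mul, map_pow, swap_diag, ← h1 _ hs]
    rcases diag_pow (k := k) γ with h4 | h4
    · rw [h4]
    · rw [h4]
      have h6 : -(X - C X : k[X][X]) ^ γ * Bivariate.swap h =
          -((X - C X : k[X][X]) ^ γ * Bivariate.swap h) := by ring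
      rw [h6]
      exact natDegree_neg _
  have h5 := natDegree_swap_le.2 hM'
  refine ⟨by omega, h, hh, by omega, natDegree_swap_le.1 (by omega), ?_⟩
  intro p q hpq m hm
  exact multGe_of_pow_mul hpq γ hm

end D

end Pool.Agent.Helper12.EC
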